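import Pool.Agent.R497.TD.Defs

/-!
# Project TD, FIN: induction over the factors
-/

set_option autoImplicit false

namespace Pool.Agent.R62.TD

open MeasureTheory Filter Finset
open Pool.Agent.R497.TD
open Pool.Agent.Y957.MC (IsFlow flowInv smo)

universe u

/-- the weights formed from the factors of lower degree are good -/
theorem good (h2 : S_FG.{u}) (h3 : S_PROD.{u}) (h4 : S_WG.{u}) {X : Type u} [MeasurableSpace X]
    (μ : Measure X) [IsProbabilityMeasure μ] {m : ℕ} {τ : Fin m → ℝ → X → X} {f : Fin m → X → ℂ}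
    {P : Fin m → Polynomial ℝ} {W : ℕ → X → ℂ} (hτ : ∀ j, IsFlow μ (τ j))
    (hf : ∀ j, AEStronglyMeasurable (f j) μ) (hfb : ∀ j, ∃ C : ℝ, ∀ᵐ x ∂μ, ‖f j x‖ ≤ C)
    (hP : ∀ j, 0 < (P j).natDegree) (hW : ∀ n, AEStronglyMeasurable (W n) μ)
    (hWb : ∃ C : ℝ, ∀ n, ∀ᵐ x ∂μ, ‖W n x‖ ≤ C) (d : ℕ) (s : Finset (Fin m))
    (hd : ∀ j ∈ s, (P j).natDegree < d) :
    GoodW μ d (fun n a x => W n x * ∏ j ∈ s, f j (τ j (a * (P j).eval (n : ℝ)) x)) := by
  induction s using Finset.induction_on with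
  | empty =>
    simp only [prod_empty, mul_one]
    exact h4 X μ d W hW hWb
  | insert i s hi ih =>
    have h5 := ih fun j hj => hd j (mem_insert_of_mem hj)
    have h6 := h2 X μ (τ i) (f i) (P i) d (hτ i) (hf i) (hfb i) (hP i) (hd i (mem_insert_self _ _))
    have h7 := h3 X μ d _ _ h5 h6
    have e : (fun (n : ℕ) (a : ℝ) (x : X) => W n x *
        ∏ j ∈ insert i s, f j (τ j (a * (P j).eval (n : ℝ)) x)) =
        fun (n : ℕ) (a : ℝ) (x : X) => (W n x * ∏ j ∈ s, f j (τ j (a * (P j).eval (n : ℝ)) x)) *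
          f i (τ i (a * (P i).eval (n : ℝ)) x) := by
      funext n a x
      rw [prod_insert hi]
      ring
    rw [e]
    exact h7

/-- FIN -/
theorem t_FIN (h1 : S_TOP.{u}) (h2 : S_FG.{u}) (h3 : S_PROD.{u}) (h4 : S_WG.{u}) : S_FIN.{u} := by
  classical
  intro X _ μ _ m τ f P W hτ hf hfb hP hinj hW hWb
  suffices H : ∀ s : Finset (Fin m), ∀ᵐ a : ℝ, ∀ᵐ x ∂μ,
      Tendsto (fun N : ℕ => (1 / (N : ℂ)) * ∑ n ∈ Icc 1 N, W n x *
        ∏ j ∈ s, f j (τ j (a * (P j).eval (n : ℝ)) x) -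
        (∏ j ∈ s, (μ[f j | flowInv (τ j)]) x) * ((1 / (N : ℂ)) * ∑ n ∈ Icc 1 N, W n x))
        atTop (nhds 0) from H univ
  intro s
  induction s using Finset.induction_on_max_value (fun j => (P j).natDegree) with
  | empty =>
    refine Eventually.of_forall fun a => Eventually.of_forall fun x => ?_
    simp only [prod_empty, mul_one, one_mul, sub_self]
    exact tendsto_const_nhds
  | insert i s hi hmax ih =>
    have hd : ∀ j ∈ s, (P j).natDegree < (P i).natDegree := by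
      intro j hj
      refine lt_of_le_of_ne (hmax j hj) fun h => ?_
      have h5 : j = i := hinj h
      rw [h5] at hj
      exact hi hj
    have hg := good h2 h3 h4 μ hτ hf hfb hP hW hWb (P i).natDegree s hd
    have ht := h1 X μ (τ i) (f i) (P i) _ (hτ i) (hf i) (hfb i) (hP i) hg
    filter_upwards [ih, ht] with a ha1 ha2
    filter_upwards [ha1, ha2] with x hx1 hx2
    have h5 := hx2.add (hx1.const_mul ((μ[f i | flowInv (τ i)]) x))
    rw [mul_zero, add_zero] at h5
    refine h5.congr fun N => ?_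
    have e1 : ∑ n ∈ Icc 1 N, (W n x * ∏ j ∈ s, f j (τ j (a * (P j).eval (n : ℝ)) x)) *
        (f i (τ i (a * (P i).eval (n : ℝ)) x) - (μ[f i | flowInv (τ i)]) x) =
        (∑ n ∈ Icc 1 N, W n x * ∏ j ∈ insert i s, f j (τ j (a * (P j).eval (n : ℝ)) x)) -
        (μ[f i | flowInv (τ i)]) x *
          ∑ n ∈ Icc 1 N, W n x * ∏ j ∈ s, f j (τ j (a * (P j).eval (n : ℝ)) x) := by
      rw [mul_sum, ← sum_sub_distrib]
      refine sum_congr rfl fun n _ => ?_
      rw [prod_insert hi]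
      ring
    rw [e1, prod_insert hi]
    ring

end Pool.Agent.R62.TD
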